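import Pool.Agent.Y164.NZ.StmT
import Pool.Agent.Y713.TG.Pla
import Pool.Agent.Y547.SZ.Kda

/-!
NZT-GOOD: the condition at the good places.
-/

set_option autoImplicit false
set_option linter.all false

open Polynomial IsDedekindDomain
open scoped Classical

namespace Pool.Agent.Y309.NZ

open Pool.Agent.Y713.SE
open Pool.Agent.Y713.SE.Dat
open Pool.Agent.TH115.GD (pl Comp Sep)
open Pool.Agent.Y164.NZ

/-- the Kummer data over `F` of the restriction of a cocycle -/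
noncomputable def kdF {ℓ n : ℕ} {K F Ω : Type} [Field K] [Field F] [Algebra K F] [Field Ω]
    [Algebra F Ω] [Algebra K Ω] [IsScalarTower K F Ω] (D : Dat ℓ n K)
    {χ : (Ω ≃ₐ[K] Ω) → Fin n → ℕ} (kd : D.KD χ) :
    D.KF (F := F) (fun σ : Ω ≃ₐ[F] Ω => χ (σ.restrictScalars K)) where
  θ := kd.θ
  d := fun i j => algebraMap K F (kd.d i j)
  h0 := kd.h0
  hθ := fun σ i j => kd.hθ (σ.restrictScalars K) i j
  hd := fun i j => by rw [kd.hd, IsScalarTower.algebraMap_apply K F Ω]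

/-- the valuations modulo `ℓ` of the Kummer data form a coboundary -/
theorem ov_add {ℓ n : ℕ} {R K Ω : Type} [CommRing R] [IsDedekindDomain R] [Field K] [Algebra R K]
    [IsFractionRing R K] [Field Ω] [Algebra K Ω] [IsGalois K Ω] (D : Dat ℓ n K)
    {χ : (Ω ≃ₐ[K] Ω) → Fin n → ℕ} (kd : D.KD χ) (v : HeightOneSpectrum R) (i j l : Fin n) :
    ov ℓ v (kd.d i j) + ov ℓ v (kd.d j l) = ov ℓ v (kd.d i l) := by
  obtain ⟨h0, h1, -⟩ := Pool.Agent.Y547.SZ.t_kda ℓ n K Ω D χ kd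
  obtain ⟨z, hz, e⟩ := h1 i j l
  have h2 := congrArg (ov ℓ v) e
  rwa [ov_mul (h0 _ _) (h0 _ _), ov_mul (pow_ne_zero _ hz) (h0 _ _), ov_powl, zero_add] at h2

/-- sums of the valuations over the clusters -/
theorem sum_ov (hPL : S_PL) {ℓ n : ℕ} {k k' K F Ω : Type} [Field k] [CharZero k] [Field k']
    [Algebra k k'] [IsSepClosure k k'] [Field K] [Algebra k[X] K] [IsFractionRing k[X] K] [Field F]
    [Algebra k'[X] F] [IsFractionRing k'[X] F] [Algebra K F] [Field Ω] [Algebra F Ω] [Algebra K Ω]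
    [IsScalarTower K F Ω] [IsGalois F Ω]
    (hKF : HKF k k' K F) (D : Dat ℓ n K) {z : (Ω ≃ₐ[F] Ω) → ClassGroup (D.base Ω).A}
    (hS : Sec D k' z) {χ : (Ω ≃ₐ[K] Ω) → Fin n → ℕ} (hE : Ex D z χ) (kd : D.KD χ) (hδ : D.δ = 1)
    (v : HeightOneSpectrum k[X]) (hle : ∀ i j, v.valuation K (D.e i - D.e j) ≤ 1)
    {C : Finset (Fin n)} (hC : ∀ i ∈ C, ∀ j ∉ C, v.valuation K (D.e i - D.e j) = 1) :
    ∑ i ∈ C, ∑ j, ov ℓ v (kd.d i j) = 0 := by
  obtain ⟨θ, hθ1, hθ2⟩ := hPL k k' K F hKF v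
  haveI : CharZero k' := charZero_of_injective_algebraMap (algebraMap k k').injective
  have hℓ : (ℓ : k') ≠ 0 := Nat.cast_ne_zero.2 D.hp.ne_zero
  have hfun : (fun σ : Ω ≃ₐ[F] Ω => (D.base Ω).phi (z σ)) =
      (fun σ : Ω ≃ₐ[F] Ω => cl ((D.base Ω).PT (χ (σ.restrictScalars K)))) := by
    funext σ
    exact hE.res σ (σ.restrictScalars K) fun x => rfl
  have htriv := hS.triv (pl θ)
  rw [hfun] at htriv
  have h := D.sum_rr hδ hℓ (kdF D kd) (pl θ) htriv (fun i j => by rw [hθ2]; exact hle i j)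
    (C := C) (fun i hi j hj => by rw [hθ2]; exact hC i hi j hj)
  rw [← h]
  refine Finset.sum_congr rfl fun i _ => ?_
  have e1 : (kdF (F := F) D kd).rr D (pl θ) i = ov ℓ (pl θ) (∏ j, algebraMap K F (kd.d i j)) := rfl
  rw [e1, ov_prod]
  · refine Finset.sum_congr rfl fun j _ => ?_
    unfold ov
    rw [hθ2]
  · intro j _
    exact (kdF (F := F) D kd).d0 D i j

theorem good_aux {n ℓ : ℕ} (hp : ℓ.Prime) (hn : ¬ ℓ ∣ n) (a : Fin n → Fin n → ZMod ℓ)
    (ha : ∀ i j l, a i j + a j l = a i l) (hs : ∀ i, ∑ j, a i j = 0) (i j : Fin n) :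
    a i j = 0 := by
  haveI := Fact.mk hp
  have h1 : ∑ l, (a i l - a j l) = 0 := by
    rw [Finset.sum_sub_distrib, hs, hs, sub_zero]
  have h2 : ∑ l : Fin n, (a i l - a j l) = (n : ZMod ℓ) * a i j := by
    have : ∀ l ∈ Finset.univ, a i l - a j l = a i j := fun l _ => by
      rw [← ha i j l]; ring
    rw [Finset.sum_congr rfl this, Finset.sum_const, Finset.card_univ, Fintype.card_fin,
      nsmul_eq_mul]
  rw [h2] at h1
  rcases mul_eq_zero.1 h1 with h | h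
  · exact absurd ((ZMod.natCast_eq_zero_iff _ _).1 h) hn
  · exact h

theorem t (hPL : S_PL) : S_GOOD := by
  intro ℓ n k k' K F Ω _ _ _ _ _ _ _ _ _ _ _ _ _ _ _ _ _ _ _ _ hKF D z hS χ hE kd hδ v hv i j
  have h0 : kd.d i j ≠ 0 := (Pool.Agent.Y547.SZ.t_kda ℓ n K Ω D χ kd).1 i j
  rw [← ov_eq_zero h0]
  refine good_aux D.hp D.hn (fun i j => ov ℓ v (kd.d i j)) (fun i j l => ov_add D kd v i j l)
    (fun i => ?_) i j
  have hle : ∀ i j, v.valuation K (D.e i - D.e j) ≤ 1 := by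
    intro i j
    rcases eq_or_ne i j with rfl | hij
    · rw [sub_self, map_zero]; exact zero_le
    · exact (hv i j hij).le
  have h := sum_ov hPL hKF D hS hE kd hδ v hle (C := {i}) (fun a ha b hb => by
    rw [Finset.mem_singleton] at ha hb
    subst ha
    exact hv _ _ (Ne.symm hb))
  rwa [Finset.sum_singleton] at h

end Pool.Agent.Y309.NZ
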